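import Pool.Agent.W610.HY.Stm

/-!
# Project HY, part RES: lower bound for the resolvent
-/

set_option autoImplicit false

namespace Pool.Agent.W19.HY.RES

open Pool.Agent.W610.HY

theorem main : Pool.Agent.W610.HY.RES := by
  intro 𝒜 _ _ _ a z w hz hw
  by_contra hlt
  push Not at hlt
  rw [spectrum.mem_resolventSet_iff] at hz
  obtain ⟨u, hu⟩ := hz
  have hR : resolvent a z = ((u⁻¹ : 𝒜ˣ) : 𝒜) := by
    unfold resolvent
    rw [← hu, Ring.inverse_unit]
  have hnorm : ‖(z - w) • resolvent a z‖ < 1 := lt_of_le_of_lt (norm_smul_le _ _) hlt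
  have hunit : IsUnit (1 - (z - w) • resolvent a z) := isUnit_one_sub_of_norm_lt_one hnorm
  have heq : algebraMap ℂ 𝒜 w - a = (u : 𝒜) * (1 - (z - w) • resolvent a z) := by
    rw [hR, mul_sub, mul_one, mul_smul_comm, Units.mul_inv, hu, Algebra.algebraMap_eq_smul_one,
      Algebra.algebraMap_eq_smul_one, sub_smul]
    abel
  rw [spectrum.mem_iff] at hw
  apply hw
  rw [heq]
  exact u.isUnit.mul hunit

end Pool.Agent.W19.HY.RES
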